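import Pool.Agent.H94.PtakOp

namespace Pool.Agent.Results.MP_cf143d_an.Maximiser

open Polynomial Pool.Agent.H94.PtakD

theorem result (n : ℕ) (hn : 1 ≤ n) (r : ℝ) (hr0 : 0 < r) (hr1 : r < 1) (h : ℂ → ℂ)
    (hh : DifferentiableOn ℂ h (Metric.ball 0 1)) :
    (∃ a : ℂ, ‖a‖ = r ∧ ∀ b : ℂ, ‖b‖ = r → ‖funCalc h (modelT n b)‖ ≤ ‖funCalc h (modelT n a)‖) ∧
    (∀ a : ℂ, ‖a‖ = r →
      (∀ b : ℂ, ‖b‖ = r → ‖funCalc h (modelT n b)‖ ≤ ‖funCalc h (modelT n a)‖) →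
      IsGreatest ((fun T => ‖funCalc h T‖) '' Adm n r) ‖funCalc h (modelT n a)‖ ∧
      MM n r h = ‖funCalc h (modelT n a)‖ ∧ modelT n a ∈ AA n ((X - C a) ^ n) ∧
      CC n ((X - C a) ^ n) h = MM n r h ∧ IsWorst n r h ((X - C a) ^ n)) ∧
    (∀ T ∈ Adm n r, Summable (fun k : ℕ => (iteratedDeriv k h 0 / (k.factorial : ℂ)) • T ^ k)) ∧
    (∀ m : ℕ, h = (fun z => z ^ m) →
      MM n r h = ‖modelT n r ^ m‖ ∧ IsWorst n r h ((X - C (r : ℂ)) ^ n)) :=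
  Pool.Agent.H94.Ptak.opform hn hr0 hr1 hh

end Pool.Agent.Results.MP_cf143d_an.Maximiser
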